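import Pool.Agent.H41.HYP.S4

/-!
# HYP, GEO: the sum over `μ`
-/

set_option autoImplicit false

namespace Pool.HYP

namespace Geo79

theorem geom (q M : ℕ) (hq : 3 ≤ q) : ∑ k ∈ Finset.range M, ((q : ℝ)⁻¹) ^ k ≤ 2 := by
  have hq0 : (0 : ℝ) < q := by exact_mod_cast (by omega : 0 < q)
  have hq3 : (q : ℝ)⁻¹ ≤ 1 / 2 := by
    rw [inv_eq_one_div]
    apply one_div_le_one_div_of_le (by norm_num)
    exact_mod_cast (by omega : 2 ≤ q)
  calc ∑ k ∈ Finset.range M, ((q : ℝ)⁻¹) ^ k ≤ ∑ k ∈ Finset.range M, (1 / 2 : ℝ) ^ k :=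
        Finset.sum_le_sum fun k _ => pow_le_pow_left₀ (by positivity) hq3 k
    _ ≤ 2 := by
        have h := geom_sum_mul (1 / 2 : ℝ) M
        have h2 : (0 : ℝ) ≤ (1 / 2) ^ M := by positivity
        linarith

end Geo79

open Geo79 in
/-- GEO. -/
theorem geo : GEOStmt := by
  intro g q hq A
  obtain ⟨M, hM⟩ : ∃ M : ℕ, ∀ μ ∈ A, ∀ i, μ i < M := by
    refine ⟨(A.sup fun μ => Finset.univ.sup μ) + 1, fun μ hμ i => ?_⟩
    have h1 : μ i ≤ Finset.univ.sup μ := Finset.le_sup (f := μ) (Finset.mem_univ i)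
    have h2 : Finset.univ.sup μ ≤ A.sup fun μ => Finset.univ.sup μ :=
      Finset.le_sup (f := fun μ : Fin g → ℕ => Finset.univ.sup μ) hμ
    omega
  have hsub : A ⊆ Fintype.piFinset fun _ : Fin g => Finset.range M := by
    intro μ hμ
    rw [Fintype.mem_piFinset]
    exact fun i => Finset.mem_range.mpr (hM μ hμ i)
  calc ∑ μ ∈ A, ((q : ℝ) ^ (∑ i, μ i))⁻¹
      ≤ ∑ μ ∈ Fintype.piFinset fun _ : Fin g => Finset.range M, ((q : ℝ) ^ (∑ i, μ i))⁻¹ :=
        Finset.sum_le_sum_of_subset_of_nonneg hsub fun _ _ _ => by positivity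
    _ = ∑ μ ∈ Fintype.piFinset fun _ : Fin g => Finset.range M, ∏ i, ((q : ℝ)⁻¹) ^ μ i := by
        refine Finset.sum_congr rfl fun μ _ => ?_
        rw [Finset.prod_pow_eq_pow_sum, inv_pow]
    _ = ∏ _i : Fin g, ∑ k ∈ Finset.range M, ((q : ℝ)⁻¹) ^ k :=
        (Finset.prod_univ_sum (fun _ : Fin g => Finset.range M)
          (fun _ k => ((q : ℝ)⁻¹) ^ k)).symm
    _ ≤ ∏ _i : Fin g, (2 : ℝ) :=
        Finset.prod_le_prod (fun _ _ => Finset.sum_nonneg fun _ _ => by positivity)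
          fun _ _ => geom q M hq
    _ = 2 ^ g := by rw [Finset.prod_const, Finset.card_univ, Fintype.card_fin]

end Pool.HYP
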