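import Pool.Agent.H41.HYP.S3
import Pool.Agent.H94.HYP.GDT
import Pool.Agent.H9.HYP.SCAL
import Pool.Agent.H52.RZ.INF

/-!
# HYP, INF: the lattice at infinity
-/

set_option autoImplicit false

namespace Pool.HYP

open Polynomial Matrix Pool.AVS Pool.AVR

namespace Inf79

section general

variable {R S : Type} [CommRing R] [CommRing S] [Nontrivial S]

theorem tau_map (φ : R →+* S) {A : R[X]} (hA : A.Monic) (p : R[X]) :
    tau (A.map φ) (p.map φ) = φ (tau A p) := by
  unfold tau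
  rw [← map_modByMonic φ hA, coeff_map, hA.natDegree_map φ]

theorem gr_map (φ : R →+* S) {A : R[X]} (hA : A.Monic) (k n : ℕ) (b : R[X]) :
    (gr k n A b).map φ = gr k n (A.map φ) (b.map φ) := by
  ext i j
  rw [Matrix.map_apply]
  simp only [gr, Matrix.of_apply]
  rw [← tau_map φ hA, Polynomial.map_mul, Polynomial.map_pow, map_X]

theorem gr_det_ne {F : Type} [Field F] {f b : F[X]} {n : ℕ} (hf : f.Monic)
    (hn : f.natDegree = n) (hi : Irreducible f) (hb : b ≠ 0) (hd : b.degree < f.degree) :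
    (gr 0 n f b).det ≠ 0 := by
  rw [(gdt F n f hf hn).2 b]
  refine mul_ne_zero (pow_ne_zero _ (neg_ne_zero.mpr one_ne_zero)) ?_
  have hc : IsCoprime b f := by
    have h1 : ¬ f ∣ b := fun h => by
      have := Polynomial.degree_le_of_dvd h hb
      exact absurd hd (not_lt.mpr this)
    exact ((Irreducible.coprime_iff_not_dvd hi).mpr h1).symm
  have hu : IsUnit (AdjoinRoot.mk f b) := by
    obtain ⟨x, y, hxy⟩ := hc
    refine IsUnit.of_mul_eq_one (AdjoinRoot.mk f x) ?_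
    rw [← map_mul, ← map_one (AdjoinRoot.mk f), ← hxy, map_add, map_mul _ y f, AdjoinRoot.mk_self,
      mul_zero, add_zero, mul_comm]
  exact (hu.map (Algebra.norm F)).ne_zero

end general

section scaling

variable {K : Type} [Field K]

/-- The Gram matrices after scaling of the variable. -/
theorem gr_scale (n k : ℕ) {f α : K[X]} {s : K} (hs : s ≠ 0) (hf : f.Monic)
    (hn : f.natDegree = n) (i j : Fin n) :
    s ^ (n - 1) * gr k n f α i j =
      s ^ ((i : ℕ) + j + k) * gr k n (f.scaleRoots s⁻¹) ((α %ₘ f).comp (C s * X)) i j := by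
  set A := f.scaleRoots s⁻¹ with hA
  have hAm : A.Monic := (monic_scaleRoots_iff _).mpr hf
  have hAn : A.natDegree = n := by rw [hA, natDegree_scaleRoots, hn]
  have hAf : A.scaleRoots s = f := by
    rw [hA, ← scaleRoots_mul, inv_mul_cancel₀ hs, scaleRoots_one]
  have h1 := Scal9.tau_comp A (X ^ ((i : ℕ) + j + k) * α) hs hAm
  rw [hAf, hAn] at h1
  have h2 : tau A ((X ^ ((i : ℕ) + j + k) * α).comp (C s * X)) =
      s ^ ((i : ℕ) + j + k) * tau A (X ^ ((i : ℕ) + j + k) * (α %ₘ f).comp (C s * X)) := by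
    rw [← tau_C_mul]
    apply tau_congr hAm
    have h3 : (α.comp (C s * X)) %ₘ A = (α %ₘ f).comp (C s * X) := by
      have := Scal9.mod_comp A α hs hAm
      rwa [hAf] at this
    have h4 := modByMonic_add_div (α.comp (C s * X)) A
    rw [h3] at h4
    refine ⟨C (s ^ ((i : ℕ) + j + k)) * X ^ ((i : ℕ) + j + k) * (α.comp (C s * X) /ₘ A), ?_⟩
    rw [mul_comp, X_pow_comp, mul_pow, ← C_pow]
    linear_combination (-(C (s ^ ((i : ℕ) + j + k)) * X ^ ((i : ℕ) + (j : ℕ) + k))) * h4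
  rw [h2] at h1
  simp only [gr, Matrix.of_apply]
  exact h1.symm

end scaling

section place

variable {F : Type} [Field F]

open Pool.RZ.INF (rho rho_div rho_ne rho_ne_zero)

theorem main (g : ℕ) (top : F[X]) (h : ℕ) (htm : top.Monic) (htn : top.natDegree = 2 * g + 1)
    (hti : Irreducible top) (f : F[X][X]) (hfm : f.Monic) (hfn : f.natDegree = 2 * g + 1)
    (hco : ∀ i ≤ 2 * g + 1, (f.coeff (2 * g + 1 - i)).natDegree ≤ i * h ∧
      (f.coeff (2 * g + 1 - i)).coeff (i * h) = top.coeff (2 * g + 1 - i))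
    (α : (RatFunc F)[X]) (hα : IsCoprime α (fK f)) (hsq : NSq (fK f) α) :
    ∃ gi : Matrix (Fin (2 * g + 1)) (Fin (2 * g + 1)) (RatFunc F), gi.det ≠ 0 ∧
      GIn (Iinf F) (giᵀ * gr 0 (2 * g + 1) (fK f) α * gi) ∧
      MIn (Iinf F) (((RatFunc.X : RatFunc F) ^ (-(h : ℤ))) •
        (giᵀ * gr 1 (2 * g + 1) (fK f) α * gi)) := by
  classical
  have hX0 : (RatFunc.X : RatFunc F) ≠ 0 := RatFunc.X_ne_zero
  obtain ⟨s, hs⟩ : ∃ s : RatFunc F, s = RatFunc.X ^ h := ⟨_, rfl⟩
  have hs0 : s ≠ 0 := by rw [hs]; exact pow_ne_zero _ hX0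
  have hfKm : (fK f).Monic := hfm.map _
  have hfKn : (fK f).natDegree = 2 * g + 1 := by rw [fK, hfm.natDegree_map, hfn]
  obtain ⟨B, hB⟩ : ∃ B : (RatFunc F)[X], B = (fK f).scaleRoots s⁻¹ := ⟨_, rfl⟩
  have hBm : B.Monic := by rw [hB]; exact (monic_scaleRoots_iff _).mpr hfKm
  have hBn : B.natDegree = 2 * g + 1 := by rw [hB, natDegree_scaleRoots, hfKn]
  have hBc : ∀ i ≤ 2 * g + 1, ∃ x : OInf F, B.coeff i = x ∧ rho x = top.coeff i := by
    intro i hi
    obtain ⟨h1, h2⟩ := hco (2 * g + 1 - i) (by omega)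
    rw [show 2 * g + 1 - (2 * g + 1 - i) = i by omega] at h1 h2
    refine ⟨⟨_, (WUW.rI_div ((2 * g + 1 - i) * h) (f.coeff i) h1).1⟩, ?_, ?_⟩
    · rw [hB, coeff_scaleRoots, hfKn, coeff_map, hs, inv_pow, ← pow_mul, mul_comm h]
      exact (div_eq_mul_inv _ _).symm
    · rw [rho_div _ _ h1, h2]
  have hcs : (↑B.coeffs : Set (RatFunc F)) ⊆ (OInf F : Set (RatFunc F)) := by
    intro x hx
    obtain ⟨i, hi, rfl⟩ := Polynomial.mem_coeffs_iff.mp (by simpa using hx)
    obtain ⟨y, hy, _⟩ := hBc i (by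
      have := le_natDegree_of_mem_supp i hi
      omega)
    rw [hy]
    exact y.2
  obtain ⟨A, hA⟩ : ∃ A : (OInf F)[X], A = B.toSubring (OInf F) hcs := ⟨_, rfl⟩
  have hAK : A.map (OInf F).subtype = B := by rw [hA]; exact map_toSubring _ _ _
  have hAm : A.Monic := by rw [hA]; exact (monic_toSubring _ _ _).mpr hBm
  have hAn : A.natDegree = 2 * g + 1 := by rw [hA, natDegree_toSubring, hBn]
  have hAr : A.map rho = top := by
    ext i
    rw [coeff_map]
    rcases le_or_gt i (2 * g + 1) with hi | hi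
    · obtain ⟨y, hy, hy'⟩ := hBc i hi
      have : A.coeff i = y := by
        apply Subtype.ext
        rw [← hy, hA, coeff_toSubring]
      rw [this, hy']
    · rw [coeff_eq_zero_of_natDegree_lt (by omega), map_zero,
        coeff_eq_zero_of_natDegree_lt (by omega)]
  -- the class
  obtain ⟨u, hu⟩ : ∃ u : (RatFunc F)[X], u = α %ₘ fK f := ⟨_, rfl⟩
  have hun : u.natDegree < 2 * g + 1 := by
    rw [hu, ← hfKn]
    exact natDegree_modByMonic_lt _ hfKm (by
      intro h1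
      rw [h1, natDegree_one] at hfKn
      omega)
  have hu0 : u ≠ 0 := by
    intro h0
    have hd : fK f ∣ α := by
      rw [← modByMonic_eq_zero_iff_dvd hfKm, ← hu, h0]
    have h2 : IsUnit (fK f) := hα.isUnit_of_dvd' hd dvd_rfl
    have h3 := natDegree_eq_zero_of_isUnit h2
    omega
  obtain ⟨m, hm, hmax⟩ := Finset.exists_max_image u.support
    (fun i : ℕ => (u.coeff i * s ^ i).intDegree) (by
      rwa [nonempty_support_iff])
  obtain ⟨d, hd⟩ : ∃ d : ℤ, d = (u.coeff m * s ^ m).intDegree := ⟨_, rfl⟩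
  rw [← hd] at hmax
  have hm0 : u.coeff m ≠ 0 := mem_support_iff.mp hm
  have hdeg : ∀ i, u.coeff i ≠ 0 →
      (u.coeff i * s ^ i * ((RatFunc.X : RatFunc F) ^ d)⁻¹).intDegree =
      (u.coeff i * s ^ i).intDegree - d := by
    intro i hi
    rw [RatFunc.intDegree_mul (mul_ne_zero hi (pow_ne_zero _ hs0))
      (inv_ne_zero (zpow_ne_zero _ hX0)), RatFunc.intDegree_inv, BIR2.intDegree_X_zpow]
    ring
  have hmem : ∀ i, u.coeff i * s ^ i * ((RatFunc.X : RatFunc F) ^ d)⁻¹ ∈ OInf F := by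
    intro i
    by_cases hi : u.coeff i = 0
    · rw [hi, zero_mul, zero_mul]
      exact zero_mem _
    · show _ ≤ (0 : ℤ)
      rw [hdeg i hi]
      have := hmax i (mem_support_iff.mpr hi)
      omega
  obtain ⟨b, hb⟩ : ∃ b : (OInf F)[X], b = ∑ i ∈ Finset.range (2 * g + 1),
    monomial i (⟨_, hmem i⟩ : OInf F) := ⟨_, rfl⟩
  have hbc : ∀ i, i < 2 * g + 1 → b.coeff i = ⟨_, hmem i⟩ := by
    intro i hi
    rw [hb, finset_sum_coeff, Finset.sum_eq_single i]
    · rw [coeff_monomial, if_pos rfl]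
    · intro j _ hj
      rw [coeff_monomial, if_neg hj]
    · intro h1
      exact absurd (Finset.mem_range.mpr hi) h1
  have hbc' : ∀ i, 2 * g + 1 ≤ i → b.coeff i = 0 := by
    intro i hi
    rw [hb, finset_sum_coeff]
    refine Finset.sum_eq_zero fun j hj => ?_
    rw [coeff_monomial, if_neg]
    have := Finset.mem_range.mp hj
    omega
  have hbK : u.comp (C s * X) = C ((RatFunc.X : RatFunc F) ^ d) * b.map (OInf F).subtype := by
    ext i
    rw [comp_C_mul_X_coeff, coeff_C_mul, coeff_map]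
    rcases lt_or_ge i (2 * g + 1) with hi | hi
    · rw [hbc i hi]
      show _ = _ * (u.coeff i * s ^ i * ((RatFunc.X : RatFunc F) ^ d)⁻¹)
      have := zpow_ne_zero d hX0
      field_simp
    · rw [hbc' i hi, map_zero, mul_zero, coeff_eq_zero_of_natDegree_lt (by omega), zero_mul]
  have hmn : m < 2 * g + 1 := lt_of_le_of_lt (le_natDegree_of_mem_supp m hm) hun
  have hbr : b.map rho ≠ 0 := by
    intro h0
    have h1 : (b.map rho).coeff m ≠ 0 := by
      rw [coeff_map, hbc m hmn]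
      apply rho_ne_zero
      · exact mul_ne_zero (mul_ne_zero hm0 (pow_ne_zero _ hs0)) (inv_ne_zero (zpow_ne_zero _ hX0))
      · show (u.coeff m * s ^ m * ((RatFunc.X : RatFunc F) ^ d)⁻¹).intDegree = 0
        rw [hdeg m hm0, ← hd, sub_self]
    rw [h0, coeff_zero] at h1
    exact h1 rfl
  have hM : rho (gr 0 (2 * g + 1) A b).det ≠ 0 := by
    rw [RingHom.map_det, RingHom.mapMatrix_apply, gr_map rho hAm, hAr]
    refine gr_det_ne htm htn hti hbr ?_
    rw [degree_eq_natDegree hti.ne_zero, htn, degree_lt_iff_coeff_zero]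
    intro k hk
    rw [coeff_map, hbc' k (by exact_mod_cast hk), map_zero]
  obtain ⟨hD0, hD1⟩ := rho_ne hM
  -- the Gram matrices
  have key : ∀ k (i j : Fin (2 * g + 1)), s ^ (2 * g) * gr k (2 * g + 1) (fK f) α i j =
      s ^ ((i : ℕ) + j + k) * ((RatFunc.X : RatFunc F) ^ d * (gr k (2 * g + 1) A b i j : OInf F)) := by
    intro k i j
    have h1 := gr_scale (2 * g + 1) k (α := α) hs0 hfKm hfKn i j
    rw [← hu, ← hB, hbK] at h1
    rw [show 2 * g + 1 - 1 = 2 * g by omega] at h1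
    rw [h1]
    congr 1
    simp only [gr, Matrix.of_apply]
    rw [show (X : (RatFunc F)[X]) ^ ((i : ℕ) + j + k) * (C ((RatFunc.X : RatFunc F) ^ d) *
      b.map (OInf F).subtype) = C ((RatFunc.X : RatFunc F) ^ d) * ((X ^ ((i : ℕ) + j + k) * b).map
        (OInf F).subtype) by
      rw [Polynomial.map_mul, Polynomial.map_pow, map_X]; ring]
    rw [tau_C_mul, ← hAK, tau_map (OInf F).subtype hAm]
    rfl
  -- the diagonal matrix with factor e
  have key2 : ∀ (e : RatFunc F) k, (Matrix.diagonal fun i : Fin (2 * g + 1) =>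
      e * s ^ g * (s ^ (i : ℕ))⁻¹)ᵀ * gr k (2 * g + 1) (fK f) α *
      (Matrix.diagonal fun i : Fin (2 * g + 1) => e * s ^ g * (s ^ (i : ℕ))⁻¹) =
      (e ^ 2 * (RatFunc.X : RatFunc F) ^ d * s ^ k) •
        (gr k (2 * g + 1) A b).map (OInf F).subtype := by
    intro e k
    ext i j
    rw [diagonal_transpose, mul_diagonal, diagonal_mul, Matrix.smul_apply, Matrix.map_apply]
    have h1 := key k i j
    have h2 : (s ^ (i : ℕ)) ≠ 0 := pow_ne_zero _ hs0
    have h3 : (s ^ (j : ℕ)) ≠ 0 := pow_ne_zero _ hs0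
    rw [pow_add, pow_add] at h1
    have h4 : e * s ^ g * (s ^ (i : ℕ))⁻¹ * gr k (2 * g + 1) (fK f) α i j *
        (e * s ^ g * (s ^ (j : ℕ))⁻¹) = e ^ 2 * (s ^ (i : ℕ))⁻¹ * (s ^ (j : ℕ))⁻¹ *
        (s ^ (2 * g) * gr k (2 * g + 1) (fK f) α i j) := by
      have h5 : s ^ (2 * g) = s ^ g * s ^ g := by ring
      rw [h5]; ring
    rw [h4, h1, smul_eq_mul]
    show _ = e ^ 2 * RatFunc.X ^ d * s ^ k * ((gr k (2 * g + 1) A b i j : OInf F) : RatFunc F)
    field_simp
  have hdetv : ((gr 0 (2 * g + 1) A b).map ((OInf F).subtype)).det =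
      ((gr 0 (2 * g + 1) A b).det : RatFunc F) := by
    rw [← RingHom.mapMatrix_apply, ← RingHom.map_det]
    rfl
  -- parity
  have hpar : Even d := by
    obtain ⟨z, hz⟩ := hsq
    have hdet := (gdt (RatFunc F) (2 * g + 1) (fK f) hfKm hfKn).2 α
    rw [hz] at hdet
    have h1 := congrArg Matrix.det (key2 1 0)
    rw [Matrix.det_mul, Matrix.det_mul, det_transpose, det_diagonal, Matrix.det_smul, hdetv,
      hdet, Fintype.card_fin] at h1
    obtain ⟨w, hw⟩ : ∃ w : RatFunc F, w = ∏ i : Fin (2 * g + 1), (1 * s ^ g * (s ^ (i : ℕ))⁻¹) :=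
      ⟨_, rfl⟩
    have hw0 : w ≠ 0 := by
      rw [hw]
      exact Finset.prod_ne_zero_iff.2 fun i _ => mul_ne_zero (mul_ne_zero one_ne_zero
        (pow_ne_zero _ hs0)) (inv_ne_zero (pow_ne_zero _ hs0))
    rw [← hw] at h1
    have hr0 : (1 ^ 2 * (RatFunc.X : RatFunc F) ^ d * s ^ 0) ^ (2 * g + 1) *
        ((gr 0 (2 * g + 1) A b).det : RatFunc F) ≠ 0 := by
      refine mul_ne_zero (pow_ne_zero _ ?_) hD0
      rw [one_pow, one_mul, pow_zero, mul_one]
      exact zpow_ne_zero _ hX0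
    have hz0 : z ≠ 0 := by
      rintro rfl
      apply hr0
      rw [← h1]
      ring
    have h2 := congrArg RatFunc.intDegree h1
    have hsgn : ((-1 : RatFunc F) ^ ((2 * g + 1) * (2 * g + 1 - 1) / 2)).intDegree = 0 ∧
        ((-1 : RatFunc F) ^ ((2 * g + 1) * (2 * g + 1 - 1) / 2)) ≠ 0 := by
      rcases neg_one_pow_eq_or (RatFunc F) ((2 * g + 1) * (2 * g + 1 - 1) / 2) with h3 | h3
      · rw [h3]; simp
      · rw [h3, RatFunc.intDegree_neg]; simp
    rw [RatFunc.intDegree_mul (mul_ne_zero hw0 (mul_ne_zero hsgn.2 (mul_ne_zero hz0 hz0))) hw0,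
      RatFunc.intDegree_mul hw0 (mul_ne_zero hsgn.2 (mul_ne_zero hz0 hz0)),
      RatFunc.intDegree_mul hsgn.2 (mul_ne_zero hz0 hz0), RatFunc.intDegree_mul hz0 hz0, hsgn.1,
      one_pow, one_mul, pow_zero, mul_one,
      RatFunc.intDegree_mul (pow_ne_zero _ (zpow_ne_zero d hX0)) hD0, hD1, ← zpow_natCast,
      ← _root_.zpow_mul, BIR2.intDegree_X_zpow] at h2
    push_cast at h2
    refine ⟨w.intDegree + z.intDegree - d * g, ?_⟩
    linarith
  obtain ⟨l, hl⟩ := hpar
  have he : ((RatFunc.X : RatFunc F) ^ (-l)) ^ 2 * RatFunc.X ^ d = 1 := by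
    rw [hl, ← zpow_natCast, ← _root_.zpow_mul, ← zpow_add₀ hX0]
    push_cast
    rw [show -l * 2 + (l + l) = 0 by ring, zpow_zero]
  refine ⟨Matrix.diagonal fun i : Fin (2 * g + 1) => (RatFunc.X : RatFunc F) ^ (-l) * s ^ g *
    (s ^ (i : ℕ))⁻¹, ?_, ?_, ?_⟩
  · rw [det_diagonal]
    exact Finset.prod_ne_zero_iff.2 fun i _ => mul_ne_zero (mul_ne_zero (zpow_ne_zero _ hX0)
      (pow_ne_zero _ hs0)) (inv_ne_zero (pow_ne_zero _ hs0))
  · rw [key2, he, pow_zero, mul_one, one_smul]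
    refine ⟨fun i j => (gr 0 (2 * g + 1) A b i j).2, ?_⟩
    rw [hdetv]
    refine ⟨hD0, ((gr 0 (2 * g + 1) A b).det).2, ?_⟩
    show _ ≤ (0 : ℤ)
    rw [RatFunc.intDegree_inv, hD1, neg_zero]
  · rw [key2, he, pow_one, one_mul, smul_smul]
    have h1 : (RatFunc.X : RatFunc F) ^ (-(h : ℤ)) * s = 1 := by
      rw [hs, ← zpow_natCast, ← zpow_add₀ hX0, neg_add_cancel, zpow_zero]
    rw [h1, one_smul]
    exact fun i j => (gr 1 (2 * g + 1) A b i j).2

end place

end Inf79

/-- INF. -/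
theorem inf : INFStmt := by
  intro F _ g D h htm htn hti f hf α hα hsq
  obtain ⟨h1, h2, h3, _⟩ := hf
  exact Inf79.main g D.top h htm htn hti f h1 h2 h3 α hα hsq

end Pool.HYP
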